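import Pool.Agent.H41.ET.Defs

set_option autoImplicit false

/-!
# `S_ASSIGN` (project ET of helper41): few classes are bad for the set `X`
-/

namespace Pool.Agent.H484.ET

open Pool.Agent.H41.ET

theorem orb_cl {V : Type} (N O : V → V) (x : V) : Cl N O (orb N O x) :=
  ⟨fun y hy A hA hx => hA.1 y (hy A hA hx), fun y hy A hA hx => hA.2 y (hy A hA hx)⟩

theorem mem_orb {V : Type} (N O : V → V) (x : V) : x ∈ orb N O x := fun _ _ hx => hx

open Classical in
theorem assign (hgk : S_GK) : S_ASSIGN := by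
  intro d κ hd O X hO hκ
  haveI : NeZero (2 * d - 1) := ⟨by omega⟩
  obtain ⟨hinv, hinj⟩ := hgk d hd
  set XF : Finset (Option (ZMod (2 * d - 1))) := X.toFinite.toFinset with hXF
  have hmX : ∀ a, a ∈ X → a ∈ XF := fun a ha => (Set.Finite.mem_toFinset _).2 ha
  have hX : X.ncard = XF.card := Set.ncard_eq_toFinset_card X
  let B : Option (ZMod (2 * d - 1)) × Option (ZMod (2 * d - 1)) → Finset (ZMod (2 * d - 1)) :=
    fun p => (Finset.univ.filter (fun t => gk d t p.1 = p.2) ∪
      Finset.univ.filter (fun t => gk d t p.1 = O p.2)) ∪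
      (if p.1 = p.2 then ∅ else Finset.univ.filter (fun t => O (gk d t p.1) = gk d t p.2))
  have h1 : ∀ a b, (Finset.univ.filter (fun t : ZMod (2 * d - 1) => gk d t a = b)).card ≤ 1 := by
    intro a b
    rw [Finset.card_le_one]
    intro t ht s hs
    rw [Finset.mem_filter] at ht hs
    exact hinj t s a (ht.2.trans hs.2.symm)
  have h3 : ∀ a b, (if a = b then (∅ : Finset (ZMod (2 * d - 1))) else
      Finset.univ.filter (fun t => O (gk d t a) = gk d t b)).card ≤ κ := by
    intro a b
    split_ifs with h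
    · simp
    · have h4 := hκ a b h
      rw [Set.ncard_eq_toFinset_card'] at h4
      refine le_trans (le_of_eq ?_) h4
      congr 1
      ext t
      simp
  have hB : ∀ p ∈ XF ×ˢ XF, (B p).card ≤ κ + 2 := by
    intro p _
    have e1 := Finset.card_union_le (Finset.univ.filter (fun t => gk d t p.1 = p.2) ∪
      Finset.univ.filter (fun t => gk d t p.1 = O p.2))
      (if p.1 = p.2 then ∅ else Finset.univ.filter (fun t => O (gk d t p.1) = gk d t p.2))
    have e2 := Finset.card_union_le (Finset.univ.filter (fun t => gk d t p.1 = p.2))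
      (Finset.univ.filter (fun t => gk d t p.1 = O p.2))
    have e3 := h1 p.1 p.2
    have e4 := h1 p.1 (O p.2)
    have e5 := h3 p.1 p.2
    have e6 : (B p).card ≤ κ + 2 := le_trans e1 (by omega)
    exact e6
  have hsub : {t | ∃ x, ∀ y ∈ orb (gk d t) O x, y ∈ X ∨ gk d t y ∈ X} ⊆
      (((XF ×ˢ XF).biUnion B : Finset (ZMod (2 * d - 1))) : Set (ZMod (2 * d - 1))) := by
    rintro t ⟨x, hx⟩
    have hcl := orb_cl (gk d t) O x
    have hM := (hinv t).1
    rw [Finset.mem_coe, Finset.mem_biUnion]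
    by_cases hW : ∀ y ∈ orb (gk d t) O x, y ∈ X
    · have m1 := hW x (mem_orb _ _ _)
      have m2 := hW _ (hcl.1 x (mem_orb _ _ _))
      refine ⟨(x, gk d t x), Finset.mem_product.2 ⟨hmX _ m1, hmX _ m2⟩, ?_⟩
      exact Finset.mem_union_left _ (Finset.mem_union_left _ (Finset.mem_filter.2 ⟨Finset.mem_univ _, rfl⟩))
    · push Not at hW
      obtain ⟨u, hu, huX⟩ := hW
      have hx1 : gk d t u ∈ X := (hx u hu).resolve_left huX
      have hv : O u ∈ orb (gk d t) O x := hcl.2 u hu
      by_cases hvX : O u ∈ X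
      · refine ⟨(gk d t u, O u), Finset.mem_product.2 ⟨hmX _ hx1, hmX _ hvX⟩, ?_⟩
        refine Finset.mem_union_left _ (Finset.mem_union_right _ (Finset.mem_filter.2 ⟨Finset.mem_univ _, ?_⟩))
        show gk d t (gk d t u) = O (O u)
        rw [hM, hO.1]
      · have hx2 : gk d t (O u) ∈ X := (hx _ hv).resolve_left hvX
        have hne : gk d t u ≠ gk d t (O u) := by
          intro h
          have h' := congrArg (gk d t) h
          rw [hM, hM] at h'
          exact hO.2 u h'.symm
        refine ⟨(gk d t u, gk d t (O u)), Finset.mem_product.2 ⟨hmX _ hx1, hmX _ hx2⟩, ?_⟩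
        refine Finset.mem_union_right _ ?_
        show t ∈ (if gk d t u = gk d t (O u) then (∅ : Finset (ZMod (2 * d - 1))) else
          Finset.univ.filter (fun s => O (gk d s (gk d t u)) = gk d s (gk d t (O u))))
        rw [if_neg hne]
        refine Finset.mem_filter.2 ⟨Finset.mem_univ _, ?_⟩
        rw [hM, hM]
  calc {t | ∃ x, ∀ y ∈ orb (gk d t) O x, y ∈ X ∨ gk d t y ∈ X}.ncard
      ≤ (((XF ×ˢ XF).biUnion B : Finset (ZMod (2 * d - 1))) : Set (ZMod (2 * d - 1))).ncard :=
        Set.ncard_le_ncard hsub (Set.toFinite _)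
    _ = ((XF ×ˢ XF).biUnion B).card := Set.ncard_coe_finset _
    _ ≤ (XF ×ˢ XF).card * (κ + 2) := Finset.card_biUnion_le_card_mul _ _ _ hB
    _ = X.ncard ^ 2 * (κ + 2) := by rw [Finset.card_product, hX, sq]

end Pool.Agent.H484.ET
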